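import Pool.Agent.Helper28.TL.StW

/-!
# Project TL, all weights, module CC: two matrices with the same coordinates
-/

set_option autoImplicit false

namespace Pool.Agent.Helper13.TLW

open Pool.Agent.Helper28.TL Pool.Agent.Helper28.WK Pool.Agent.Helper4.TL Pool.Agent.Helper14.CV

theorem hCC : SECC := by
  intro p ν L R _ X hX x y c b v1 v2 w1 w2 hv hw hc hb
  obtain ⟨-, hX2⟩ := hX
  have hlow : (p : ℤ) ^ (L + ν) ∣
      2 * (p : ℤ) ^ ν * y * (1 + 2 * x * (2 * (p : ℤ) ^ ν * c)) - 2 * (p : ℤ) ^ ν * c := by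
    obtain ⟨k, hk⟩ := hc
    refine ⟨-2 * k, ?_⟩
    rw [pow_add]
    linear_combination (-2 * ((p : ℤ) ^ ν)) * hk
  have hup : (p : ℤ) ^ L ∣ 2 * b - 2 * x * (1 + 2 * b * (2 * (p : ℤ) ^ ν * y)) := by
    obtain ⟨k, hk⟩ := hb
    exact ⟨2 * k, by linear_combination 2 * hk⟩
  have h2 : (2 : ℤ) ∣ 2 * b - 2 * x * (1 + 2 * b * (2 * (p : ℤ) ^ ν * y)) :=
    ⟨b - x * (1 + 2 * b * (2 * (p : ℤ) ^ ν * y)), by ring⟩
  have h3 : (2 : ℤ) ∣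
      2 * (p : ℤ) ^ ν * y * (1 + 2 * x * (2 * (p : ℤ) ^ ν * c)) - 2 * (p : ℤ) ^ ν * c :=
    ⟨(p : ℤ) ^ ν * y * (1 + 2 * x * (2 * (p : ℤ) ^ ν * c)) - (p : ℤ) ^ ν * c, by ring⟩
  obtain ⟨k, hk⟩ := hX2
    ((1 + 2 * b * (2 * (p : ℤ) ^ ν * y)) * (1 + 2 * x * (2 * (p : ℤ) ^ ν * c)) -
      2 * b * (2 * (p : ℤ) ^ ν * c))
    (2 * b - 2 * x * (1 + 2 * b * (2 * (p : ℤ) ^ ν * y)))
    (2 * (p : ℤ) ^ ν * y * (1 + 2 * x * (2 * (p : ℤ) ^ ν * c)) - 2 * (p : ℤ) ^ ν * c)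
    (1 - 2 * x * (2 * (p : ℤ) ^ ν * y)) (by ring) hup hlow
  rw [eps_id h2 h3, one_smul] at hk
  have key : ∀ u1 u2 : ℤ, (u1 ≠ 0 ∨ u2 ≠ 0) →
      X (u1 + 2 * b * (2 * (p : ℤ) ^ ν * y * u1 + u2)) (2 * (p : ℤ) ^ ν * y * u1 + u2) =
        X (u1 + 2 * x * u2) (2 * (p : ℤ) ^ ν * c * (u1 + 2 * x * u2) + u2) + k := by
    intro u1 u2 hu
    have hne : u1 + 2 * x * u2 ≠ 0 ∨ 2 * (p : ℤ) ^ ν * c * (u1 + 2 * x * u2) + u2 ≠ 0 := by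
      by_contra hcon
      push Not at hcon
      obtain ⟨h1, h2⟩ := hcon
      rw [h1, mul_zero, zero_add] at h2
      rw [h2, mul_zero, add_zero] at h1
      rcases hu with hu | hu
      · exact hu h1
      · exact hu h2
    have h := hk (u1 + 2 * x * u2) (2 * (p : ℤ) ^ ν * c * (u1 + 2 * x * u2) + u2) hne
    rw [← h]
    simp only [act]
    congr 1 <;> ring
  rw [key v1 v2 hv, key w1 w2 hw]
  abel

end Pool.Agent.Helper13.TLW
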